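import Pool.Agent.Helper1.TE.Goals

/-!
# TE packet PS: asymptotics of the space bound
-/

namespace Pool.Agent.Helper62.TE

open Pool.Agent.Helper1.TE

theorem sP_pos (h b : ℕ) (hb : 1 ≤ b) : 1 ≤ sP h b := by
  unfold sP
  exact le_min hb (Nat.succ_le_succ (Nat.zero_le _))

theorem sP_le (h b : ℕ) : sP h b ≤ b := min_le_left _ _

/-- (i) -/
theorem hs_le (h b : ℕ) :
    ((h * sP h b : ℕ) : ℝ) ≤ h + √((h * (b * Nat.log 2 b) : ℕ) : ℝ) := by
  set t := Nat.sqrt (b * Nat.log 2 b / h) with ht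
  have h1 : sP h b ≤ t + 1 := min_le_right _ _
  have h2 : h * sP h b ≤ h + h * t := by
    calc h * sP h b ≤ h * (t + 1) := Nat.mul_le_mul_left _ h1
      _ = h + h * t := by ring
  have h3 : (h * t) ^ 2 ≤ h * (b * Nat.log 2 b) := by
    have h4 : t * t ≤ b * Nat.log 2 b / h := Nat.sqrt_le _
    have h5 : h * (b * Nat.log 2 b / h) ≤ b * Nat.log 2 b := Nat.mul_div_le _ _
    calc (h * t) ^ 2 = h * (h * (t * t)) := by ring
      _ ≤ h * (h * (b * Nat.log 2 b / h)) := by gcongr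
      _ ≤ h * (b * Nat.log 2 b) := by gcongr
  have h6 : ((h * t : ℕ) : ℝ) ≤ √((h * (b * Nat.log 2 b) : ℕ) : ℝ) := by
    apply Real.le_sqrt_of_sq_le
    exact_mod_cast h3
  have h7 : ((h * sP h b : ℕ) : ℝ) ≤ ((h + h * t : ℕ) : ℝ) := by exact_mod_cast h2
  rw [Nat.cast_add] at h7
  linarith

/-- (ii) -/
theorem bl_le (h b : ℕ) (hh : 1 ≤ h) (hb : 1 ≤ b) :
    ((b * Nat.log 2 b : ℕ) : ℝ) / (sP h b : ℝ) ≤
      √((h * (b * Nat.log 2 b) : ℕ) : ℝ) + (Nat.log 2 b : ℝ) := by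
  have hs : (0 : ℝ) < (sP h b : ℝ) := by exact_mod_cast sP_pos h b hb
  have hQ : 0 ≤ √((h * (b * Nat.log 2 b) : ℕ) : ℝ) := Real.sqrt_nonneg _
  have hl : (0 : ℝ) ≤ (Nat.log 2 b : ℝ) := Nat.cast_nonneg _
  by_cases hc : sP h b = b
  · rw [hc]
    have hb0 : (0 : ℝ) < (b : ℝ) := by exact_mod_cast hb
    have : ((b * Nat.log 2 b : ℕ) : ℝ) / (b : ℝ) = (Nat.log 2 b : ℝ) := by
      rw [Nat.cast_mul]; field_simp
    rw [this]; linarith
  · have hs2 : sP h b = Nat.sqrt (b * Nat.log 2 b / h) + 1 := by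
      unfold sP at hc ⊢
      rcases min_choice b (Nat.sqrt (b * Nat.log 2 b / h) + 1) with h1 | h1
      · exact absurd h1 hc
      · exact h1
    have h3 : b * Nat.log 2 b / h < sP h b * sP h b := by
      rw [hs2]; exact Nat.lt_succ_sqrt _
    have h4 : b * Nat.log 2 b < sP h b * sP h b * h := (Nat.div_lt_iff_lt_mul hh).1 h3
    have h5 : ((b * Nat.log 2 b : ℕ) : ℝ) / (sP h b : ℝ) ≤
        √((h * (b * Nat.log 2 b) : ℕ) : ℝ) := by
      apply Real.le_sqrt_of_sq_le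
      rw [div_pow, div_le_iff₀ (by positivity)]
      have h6 : (b * Nat.log 2 b) ^ 2 ≤ (h * (b * Nat.log 2 b)) * sP h b ^ 2 := by
        calc (b * Nat.log 2 b) ^ 2 = (b * Nat.log 2 b) * (b * Nat.log 2 b) := by ring
          _ ≤ (b * Nat.log 2 b) * (sP h b * sP h b * h) := Nat.mul_le_mul_left _ h4.le
          _ = (h * (b * Nat.log 2 b)) * sP h b ^ 2 := by ring
      exact_mod_cast h6
    linarith

/-- (iii) -/
theorem m_mul_le (h b : ℕ) (hb : 1 ≤ b) : mP h b * sP h b ≤ 5 * b := by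
  have h1 := sP_pos h b hb
  have h2 := sP_le h b
  have h3 : mP h b * sP h b ≤ 4 * b + sP h b - 1 := Nat.div_mul_le_self _ _
  omega

theorem m_le (h b : ℕ) (hb : 1 ≤ b) : mP h b ≤ 5 * b := by
  have h1 := sP_pos h b hb
  calc mP h b = mP h b * 1 := (mul_one _).symm
    _ ≤ mP h b * sP h b := Nat.mul_le_mul_left _ h1
    _ ≤ 5 * b := m_mul_le h b hb

theorem R_le (h b : ℕ) (hb : 1 ≤ b) : RP h b ≤ 2 * b := by
  have h1 := sP_pos h b hb
  have h2 : RP h b * (4 * sP h b) ≤ b + 4 * sP h b - 1 := Nat.div_mul_le_self _ _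
  by_contra hcon
  push Not at hcon
  have h3 : (2 * b + 1) * (4 * sP h b) ≤ RP h b * (4 * sP h b) :=
    Nat.mul_le_mul_right _ (by omega)
  have h4 : b * 1 ≤ b * sP h b := Nat.mul_le_mul_left _ h1
  have h5 : (2 * b + 1) * (4 * sP h b) = 8 * (b * sP h b) + 4 * sP h b := by ring
  omega

theorem log_le (h b : ℕ) (hb : 1 ≤ b) :
    Nat.log 2 (mP h b + RP h b) ≤ Nat.log 2 b + 3 := by
  have h1 : mP h b + RP h b ≤ b * 2 * 2 * 2 := by
    have := m_le h b hb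
    have := R_le h b hb
    omega
  have hb0 : b ≠ 0 := by omega
  calc Nat.log 2 (mP h b + RP h b) ≤ Nat.log 2 (b * 2 * 2 * 2) := Nat.log_mono_right h1
    _ = Nat.log 2 b + 3 := by
        rw [Nat.log_mul_base (by norm_num) (by positivity),
          Nat.log_mul_base (by norm_num) (by positivity),
          Nat.log_mul_base (by norm_num) hb0]

theorem natLog_le (b : ℕ) (hb : 1 ≤ b) : (Nat.log 2 b : ℝ) ≤ 2 * Real.log b := by
  have hb0 : b ≠ 0 := by omega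
  have h1 : 2 ^ Nat.log 2 b ≤ b := Nat.pow_log_le_self 2 hb0
  have h2 : ((2 : ℝ) ^ Nat.log 2 b) ≤ (b : ℝ) := by exact_mod_cast h1
  have h3 := Real.log_le_log (by positivity) h2
  rw [Real.log_pow] at h3
  have h4 : (1 / 2 : ℝ) ≤ Real.log 2 := by
    have := Real.log_two_gt_d9
    linarith
  have h5 : (Nat.log 2 b : ℝ) * (1 / 2) ≤ (Nat.log 2 b : ℝ) * Real.log 2 :=
    mul_le_mul_of_nonneg_left h4 (Nat.cast_nonneg _)
  linarith

theorem Q_le (h b : ℕ) (hb : 1 ≤ b) :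
    √((h * (b * Nat.log 2 b) : ℕ) : ℝ) ≤ 2 * √(h * b * Real.log b) := by
  have h1 := natLog_le b hb
  have h0 : 0 ≤ Real.log b := Real.log_nonneg (by exact_mod_cast hb)
  have h2 : ((h * (b * Nat.log 2 b) : ℕ) : ℝ) ≤ 2 ^ 2 * (h * b * Real.log b) := by
    push_cast
    have h3 : (h : ℝ) * (b * (Nat.log 2 b : ℝ)) ≤ (h : ℝ) * (b * (2 * Real.log b)) := by
      gcongr
    have h4 : 0 ≤ (h : ℝ) * b * Real.log b := by positivity
    nlinarith
  calc √((h * (b * Nat.log 2 b) : ℕ) : ℝ) ≤ √(2 ^ 2 * (h * b * Real.log b)) :=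
        Real.sqrt_le_sqrt h2
    _ = 2 * √(h * b * Real.log b) := by
        rw [Real.sqrt_mul (by norm_num), Real.sqrt_sq (by norm_num)]

/-- GOAL PS. -/
theorem gPS : GoalPS := by
  refine ⟨100, ?_⟩
  intro h b hh hb
  have hs1 := sP_pos h b hb
  have hs2 := sP_le h b
  have hsR : (1 : ℝ) ≤ (sP h b : ℝ) := by exact_mod_cast hs1
  have hsb : (sP h b : ℝ) ≤ (b : ℝ) := by exact_mod_cast hs2
  have hbR : (1 : ℝ) ≤ (b : ℝ) := by exact_mod_cast hb
  have hhR : (1 : ℝ) ≤ (h : ℝ) := by exact_mod_cast hh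
  have hi := hs_le h b
  have hii := bl_le h b hh hb
  have hQ := Q_le h b hb
  have hlog := log_le h b hb
  have hmul := m_mul_le h b hb
  have hl : (Nat.log 2 b : ℝ) ≤ (b : ℝ) := by
    exact_mod_cast Nat.log_le_self 2 b
  set l : ℝ := (Nat.log 2 b : ℝ) with hldef
  set s : ℝ := (sP h b : ℝ) with hsdef
  set Q : ℝ := √((h * (b * Nat.log 2 b) : ℕ) : ℝ) with hQdef
  set Z : ℝ := √(h * b * Real.log b) with hZdef
  have hl0 : 0 ≤ l := Nat.cast_nonneg _
  have hZ0 : 0 ≤ Z := Real.sqrt_nonneg _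
  have hlogR : ((Nat.log 2 (mP h b + RP h b) : ℕ) : ℝ) ≤ l + 3 := by
    have : ((Nat.log 2 (mP h b + RP h b) : ℕ) : ℝ) ≤ ((Nat.log 2 b + 3 : ℕ) : ℝ) := by
      exact_mod_cast hlog
    push_cast at this
    exact this
  have hm : (mP h b : ℝ) ≤ 5 * b / s := by
    rw [le_div_iff₀ (by linarith)]
    have : ((mP h b * sP h b : ℕ) : ℝ) ≤ ((5 * b : ℕ) : ℝ) := by exact_mod_cast hmul
    push_cast at this
    exact this
  have hm0 : (0 : ℝ) ≤ (mP h b : ℝ) := Nat.cast_nonneg _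
  have hbs : (b : ℝ) / s ≤ b := by
    rw [div_le_iff₀ (by linarith)]
    nlinarith
  have hbs0 : 0 ≤ (b : ℝ) / s := by positivity
  have hii' : (b : ℝ) / s * l ≤ Q + l := by
    have : ((b * Nat.log 2 b : ℕ) : ℝ) / s = (b : ℝ) / s * l := by
      push_cast
      ring
    rw [← this]; exact hii
  have hi' : (h : ℝ) * s ≤ h + Q := by
    have h1 : ((h * sP h b : ℕ) : ℝ) = (h : ℝ) * s := by
      rw [hsdef]
      exact Nat.cast_mul _ _
    rw [← h1]
    exact hi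
  have hE : (EP h b : ℝ) ≤ 10 * b + 5 * (Q + l) + 20 * b + 4 * b + 2 * l + 8 +
      3 * h + 3 * b + 2 := by
    have e1 : (EP h b : ℝ) = ((mP h b : ℝ) + 2) *
        (2 * s + ((Nat.log 2 (mP h b + RP h b) : ℕ) : ℝ) + 1) + 3 * h + 3 * b + 2 := by
      unfold EP
      push_cast
      rfl
    have e2 : ((mP h b : ℝ) + 2) *
        (2 * s + ((Nat.log 2 (mP h b + RP h b) : ℕ) : ℝ) + 1) ≤
        (5 * b / s + 2) * (2 * s + (l + 3) + 1) := by
      gcongr
    have e3 : (5 * b / s + 2) * (2 * s + (l + 3) + 1) =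
        10 * b + 5 * ((b : ℝ) / s * l) + 20 * ((b : ℝ) / s) + 4 * s + 2 * l + 8 := by
      have : s ≠ 0 := by linarith
      field_simp
      ring
    rw [e1]
    rw [e3] at e2
    linarith
  have hS : (SpB h b : ℝ) = (EP h b : ℝ) + (2 * (h * s) + 4 * s + 5 * h + 10) := by
    unfold SpB
    push_cast
    ring
  rw [hS]
  have : (100 : ℝ) * (h + b + Z) = 100 * h + 100 * b + 100 * Z := by ring
  rw [this]
  linarith

end Pool.Agent.Helper62.TE
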